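import Mathlib

/-!
# Piece BIL-LEG: the Legendrian property is transported by a link
-/

set_option autoImplicit false

namespace Pool.Agent.Helper58.Bil

open Real Set Filter Topology

theorem leg {σ α α' x₀ : ℝ} {δ m d E E1 k n d' E2 E21 : ℝ → ℝ} {m₁ d₁ n₁ d₁' E2₁ : ℝ}
    (hδ : Continuous δ)
    (hm : HasDerivAt m m₁ x₀) (hd : HasDerivAt d d₁ x₀) (hn : HasDerivAt n n₁ x₀)
    (hd' : HasDerivAt d' d₁' x₀) (hE2 : HasDerivAt E2 E2₁ x₀)
    (hE : HasDerivAt E (E1 x₀ * m₁) x₀) (hs : sin (d' x₀) ≠ 0)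
    (r1 : ∀ᶠ x in 𝓝 x₀, 1 + σ * δ (m x - (d x - α)) = E x * cos (d x) - E1 x * sin (d x))
    (r2 : ∀ᶠ x in 𝓝 x₀, 1 + k x = E x * cos (d x) + E1 x * sin (d x))
    (r3 : ∀ᶠ x in 𝓝 x₀, 1 + k x = E2 x * cos (d' x) - E21 x * sin (d' x))
    (r4 : ∀ᶠ x in 𝓝 x₀, 1 + σ * δ (n x + (d' x - α')) = E2 x * cos (d' x) + E21 x * sin (d' x))
    (r5 : ∀ᶠ x in 𝓝 x₀, n x = m x + (d x - α) + (d' x - α'))
    (r6 : ∀ᶠ x in 𝓝 x₀, (2 * E x * sin (d x) - 2 * (d x - α) - 2 * tan α)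
      + (2 * E2 x * sin (d' x) - 2 * (d' x - α') - 2 * tan α')
      = σ * ∫ y in (m x - (d x - α))..(n x + (d' x - α')), δ y) :
    E2₁ = E21 x₀ * n₁ := by
  -- derivative of the antiderivative
  set F : ℝ → ℝ := fun y => ∫ t in (0 : ℝ)..y, δ t with hF
  have hFd : ∀ y, HasDerivAt F (δ y) y := fun y =>
    (hδ.integral_hasStrictDerivAt 0 y).hasDerivAt
  have hint : ∀ a b : ℝ, ∫ y in a..b, δ y = F b - F a := by
    intro a b
    rw [hF]
    exact (intervalIntegral.integral_interval_sub_left (hδ.intervalIntegrable 0 b)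
      (hδ.intervalIntegrable 0 a)).symm
  -- derivative of n
  have hn1 : n₁ = m₁ + d₁ + d₁' := by
    have h1 : HasDerivAt (fun x => m x + (d x - α) + (d' x - α')) (m₁ + d₁ + d₁') x₀ :=
      (hm.add (hd.sub_const α)).add (hd'.sub_const α')
    exact (hn.congr_of_eventuallyEq (r5.mono fun x hx => hx.symm)).unique h1
  have hb : HasDerivAt (fun x => m x - (d x - α)) (m₁ - d₁) x₀ := hm.sub (hd.sub_const α)
  have ho : HasDerivAt (fun x => n x + (d' x - α')) (n₁ + d₁') x₀ := hn.add (hd'.sub_const α')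
  have hR : HasDerivAt (fun x => σ * (F (n x + (d' x - α')) - F (m x - (d x - α))))
      (σ * (δ (n x₀ + (d' x₀ - α')) * (n₁ + d₁') - δ (m x₀ - (d x₀ - α)) * (m₁ - d₁))) x₀ := by
    have h1 := (hFd (n x₀ + (d' x₀ - α'))).comp x₀ ho
    have h2 := (hFd (m x₀ - (d x₀ - α))).comp x₀ hb
    exact (h1.sub h2).const_mul σ
  have hL : HasDerivAt (fun x => (2 * E x * sin (d x) - 2 * (d x - α) - 2 * tan α)
      + (2 * E2 x * sin (d' x) - 2 * (d' x - α') - 2 * tan α'))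
      ((2 * (E1 x₀ * m₁) * sin (d x₀) + 2 * E x₀ * (cos (d x₀) * d₁) - 2 * d₁)
      + (2 * E2₁ * sin (d' x₀) + 2 * E2 x₀ * (cos (d' x₀) * d₁') - 2 * d₁')) x₀ := by
    have h1 := (((hE.const_mul 2).mul hd.sin).sub ((hd.sub_const α).const_mul 2)).sub_const
      (2 * tan α)
    have h2 := (((hE2.const_mul 2).mul hd'.sin).sub ((hd'.sub_const α').const_mul 2)).sub_const
      (2 * tan α')
    exact h1.add h2
  have hEq : (fun x => (2 * E x * sin (d x) - 2 * (d x - α) - 2 * tan α)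
      + (2 * E2 x * sin (d' x) - 2 * (d' x - α') - 2 * tan α')) =ᶠ[𝓝 x₀]
      fun x => σ * (F (n x + (d' x - α')) - F (m x - (d x - α))) := by
    filter_upwards [r6] with x hx
    rw [hx, hint]
  have key := (hR.congr_of_eventuallyEq hEq).unique hL
  have e1 := r1.self_of_nhds
  have e2 := r2.self_of_nhds
  have e3 := r3.self_of_nhds
  have e4 := r4.self_of_nhds
  have hfin : 2 * sin (d' x₀) * (E2₁ - E21 x₀ * n₁) = 0 := by
    rw [hn1] at key ⊢
    linear_combination (-1 : ℝ) * key + (-m₁ + d₁) * e1 + (m₁ + d₁) * e2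
      - (m₁ + d₁) * e3 + (m₁ + d₁ + 2 * d₁') * e4
  have hs2 : (2 * sin (d' x₀)) ≠ 0 := mul_ne_zero two_ne_zero hs
  have := (mul_eq_zero.1 hfin).resolve_left hs2
  linarith

end Pool.Agent.Helper58.Bil
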